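import Mathlib

set_option autoImplicit false

namespace Pool.Agent.Results.MP_23a291_gt.Main

open Set Filter

variable (X : Type) [TopologicalSpace X]

def Sel (P : (ℕ → Set X) → Prop) : Prop :=
  ∀ 𝒰 : ℕ → Set (Set X), (∀ n, (∀ U ∈ 𝒰 n, IsOpen U) ∧ ⋃₀ 𝒰 n = univ) →
    ∃ 𝒱 : ℕ → Set (Set X), (∀ n, (𝒱 n).Finite ∧ 𝒱 n ⊆ 𝒰 n) ∧ P fun n => ⋃₀ 𝒱 n

def AS : Prop := Sel X fun W => ∀ F : Set X, F.Finite → {n | F ⊆ closure (W n)}.Infinite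

def WS : Prop := Sel X fun W => ∀ ℱ : Set (Set X), ℱ.Finite →
  (∀ U ∈ ℱ, IsOpen U ∧ U.Nonempty) → {n | ∀ U ∈ ℱ, (U ∩ W n).Nonempty}.Infinite

def WSK : Prop := Sel X fun W => ∃ Y : Set X, Dense Y ∧
  ∀ F ⊆ Y, F.Finite → {n | F ⊆ W n}.Infinite

def B (N : ℕ) (g : ℕ → ℕ) : Set (ℕ → ℕ) := {f | (∀ n < N, f n = 0) ∧ ∀ᶠ n in atTop, g n < f n}

lemma B_inter (N M : ℕ) (g h : ℕ → ℕ) : B (max N M) (g ⊔ h) ⊆ B N g ∩ B M h := fun _ hf =>
  ⟨⟨fun n hn => hf.1 n (lt_max_of_lt_left hn), hf.2.mono fun _ => le_sup_left.trans_lt⟩,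
    fun n hn => hf.1 n (lt_max_of_lt_right hn), hf.2.mono fun _ => le_sup_right.trans_lt⟩

lemma B_ne (N : ℕ) (g : ℕ → ℕ) : (B N g).Nonempty :=
  ⟨fun n => if n < N then 0 else g n + 1, fun _ h => if_pos h, (eventually_ge_atTop N).mono
    fun n hn => by simp [hn.not_gt]⟩

abbrev top : TopologicalSpace (ℕ → ℕ) where
  IsOpen U := U.Nonempty → ∃ N g, B N g ⊆ U
  isOpen_univ _ := ⟨0, 0, subset_univ _⟩
  isOpen_inter U V h h' hne := by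
    obtain ⟨N, g, h1⟩ := h (hne.mono inter_subset_left)
    obtain ⟨M, k, h2⟩ := h' (hne.mono inter_subset_right)
    exact ⟨_, _, (B_inter N M g k).trans (inter_subset_inter h1 h2)⟩
  isOpen_sUnion S h := fun ⟨x, U, h1, h2⟩ =>
    (h U h1 ⟨x, h2⟩).imp fun _ => Exists.imp fun _ h3 => h3.trans (subset_sUnion_of_mem h1)

theorem result : ∃ (X : Type) (_ : TopologicalSpace X), T1Space X ∧ AS X ∧ WS X ∧ ¬ WSK X := by
  let := top
  have h {P : (ℕ → Set (ℕ → ℕ)) → Prop} (hP : ∀ W, (∀ n, Dense (W n)) → P W) : Sel _ P := by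
    intro 𝒰 h
    choose U h1 h2 using fun n => eq_univ_iff_forall.1 (h n).2 0
    refine ⟨fun n => {U n}, fun n => ⟨finite_singleton _, singleton_subset_iff.2 (h1 n)⟩,
      hP _ fun n => dense_iff_inter_open.2 fun V h3 h4 => ?_⟩
    obtain ⟨N, g, h5⟩ := h3 h4
    obtain ⟨M, k, h6⟩ := (h n).1 _ (h1 n) ⟨0, h2 n⟩
    exact (B_ne _ _).mono ((B_inter N M g k).trans (inter_subset_inter h5 (by simpa)))
  refine ⟨ℕ → ℕ, top, ⟨fun f => ⟨fun _ => ⟨0, f, fun g hg e => by simpa [show g = f from e]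
    using hg.2.exists⟩⟩⟩, h fun W hW F _ => infinite_univ.mono fun n _ _ _ => hW n _,
    h fun W hW ℱ _ h1 => infinite_univ.mono fun n _ U hU =>
      (hW n).inter_open_nonempty U (h1 U hU).1 (h1 U hU).2, fun h => ?_⟩
  obtain ⟨𝒱, h1, Y, h2, h3⟩ := h (fun n => range fun k => {f | f n ≤ k}) fun n =>
    ⟨forall_mem_range.2 fun k _ => ⟨n + 1, 0, fun f hf => (hf.1 n n.lt_succ_self).trans_le
      k.zero_le⟩, eq_univ_of_forall fun f => ⟨_, ⟨f n, rfl⟩, le_refl (f n)⟩⟩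
  have h4 (n : ℕ) : ∃ k, ∀ U ∈ 𝒱 n, U ⊆ {f | f n ≤ k} :=
    ((eventually_all_finite (h1 n).1).2 fun U hU => ((h1 n).2 hU).elim fun j hj =>
      (eventually_ge_atTop j).mono fun k hk => hj ▸ fun _ h => le_trans h hk).exists
  choose g hg using h4
  obtain ⟨f, h5, h6⟩ := h2.inter_open_nonempty (B 0 g) (fun _ => ⟨0, g, subset_rfl⟩) (B_ne _ _)
  obtain ⟨N, hN⟩ := eventually_atTop.1 h5.2
  obtain ⟨n, h7, h8⟩ := (h3 {f} (singleton_subset_iff.2 h6) (finite_singleton f)).exists_gt N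
  obtain ⟨U, h9, k⟩ := h7 rfl
  exact (hN n h8.le).not_ge (hg n U h9 k)

end Pool.Agent.Results.MP_23a291_gt.Main
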